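import Pool.Agent.MP_9207e0_ag.Gamma
import Pool.Agent.MP_9207e0_ag.Points
import Pool.Agent.MP_a43263_nt.two.Base

-- ======== part 0: formerly Pool.Agent.MP_9207e0_ag.r2.Chow
section MrgPart0

/-! The bilinear part of the class of a point on the Kummer surface vanishes on the rational
curves `u = x` and `u = 1 - x`. -/

set_option linter.unusedSectionVars false

namespace Pool.Agent.MP_9207e0_ag.r2

open WeierstrassCurve.Affine

variable [DecidableEq Qbar] {G : Type} [AddCommGroup G] {l m : Qbar}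

theorem beta_tors {H : Type} [AddCommGroup H] (h0 : m ≠ 0) (h1 : m ≠ 1)
    (β : H →+ (legendre m).Point →+ G) {T : H} {k : ℕ} (hT : 2 ^ k • T = 0)
    (R : (legendre m).Point) : β T R = 0 := by
  have : ∀ j : ℕ, ∃ R', 2 ^ j • R' = R := by
    intro j
    induction j with
    | zero => exact ⟨R, by simp⟩
    | succ j ih =>
      obtain ⟨R', hR⟩ := ih
      obtain ⟨R'', hR'⟩ := leg_div2 h0 h1 R'
      exact ⟨R'', by rw [pow_succ 2 j, mul_nsmul', hR', hR]⟩
  obtain ⟨R', rfl⟩ := this k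
  rw [map_nsmul, ← AddMonoidHom.nsmul_apply, ← map_nsmul, hT, map_zero, AddMonoidHom.zero_apply]

/-- the two lines -/
def Lin {F : Type} [Field F] (m α β c n : F) : Prop :=
  α = 1 ∧ β = 0 ∧ c ^ 2 = 1 ∧ n = m ∨ α = -1 ∧ β = 1 ∧ c ^ 2 = -1 ∧ n = 1 - m

theorem Lin.fl {F : Type} [Field F] {m α β c n : F} (h : Lin m α β c n) (x : F) :
    fl m (α * x + β) = c ^ 2 * (x * (x - 1) * (x - n)) := by
  rcases h with ⟨rfl, rfl, e, rfl⟩ | ⟨rfl, rfl, e, rfl⟩ <;> rw [e] <;>
    simp only [MP_9207e0_ag.fl] <;> ring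

theorem Lin.map {F : Type} [Field F] [Algebra Qbar F] {α β c n : Qbar} (h : Lin m α β c n) :
    Lin (algebraMap Qbar F m) (algebraMap Qbar F α) (algebraMap Qbar F β) (algebraMap Qbar F c)
      (algebraMap Qbar F n) := by
  rcases h with ⟨rfl, rfl, e, rfl⟩ | ⟨rfl, rfl, e, rfl⟩
  · exact .inl ⟨map_one _, map_zero _, by rw [← map_pow, e, map_one], rfl⟩
  · exact .inr ⟨by simp, map_one _, by rw [← map_pow, e]; simp, by simp⟩

theorem Lin.ne {α β c n : Qbar} (h : Lin m α β c n) : c ≠ 0 := by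
  rintro rfl
  rcases h with ⟨-, -, e, -⟩ | ⟨-, -, e, -⟩ <;> simp at e

theorem conic_const {γ : Qbar → Qbar → Qbar → G} (hγ : CurveRel l m γ) {α β c n : Qbar}
    (hL : Lin m α β c n) {t w t' w' : Qbar} (e : w ^ 2 = (t - l) * (t - n))
    (k : 2 * (w - t) + l + n ≠ 0) (r : c * (t * (t - 1) * w) ≠ 0)
    (e' : w' ^ 2 = (t' - l) * (t' - n)) (k' : 2 * (w' - t') + l + n ≠ 0)
    (r' : c * (t' * (t' - 1) * w') ≠ 0) :
    γ t (α * t + β) (c * (t * (t - 1) * w)) = γ t' (α * t' + β) (c * (t' * (t' - 1) * w')) := by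
  obtain ⟨V, hV, hrel⟩ := line_rel hγ
  set L := algebraMap Qbar (RatFunc Qbar) l with hL'
  set M := algebraMap Qbar (RatFunc Qbar) n with hM
  set T : RatFunc Qbar := (L * M - RatFunc.X ^ 2) / (2 * RatFunc.X + L + M) with hT
  have key : ∀ t w : Qbar, w ^ 2 = (t - l) * (t - n) → 2 * (w - t) + l + n ≠ 0 →
      (2 * RatFunc.X + L + M ≠ 0) ∧ Sp (V (w - t)) T t ∧
      Sp (V (w - t)) (algebraMap _ _ α * T + algebraMap _ _ β) (α * t + β) ∧
      Sp (V (w - t)) (algebraMap _ _ c * (T * (T - 1) * (T + RatFunc.X)))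
        (c * (t * (t - 1) * w)) := by
    intro t w e k
    obtain ⟨hP, hX⟩ := hV (w - t)
    have s1 := (((Sp.ofNat _ 2).mul hP hX).add (Sp.const _ l)).add (Sp.const _ n)
    have s2 := (((Sp.const _ l).mul hP (Sp.const _ n)).sub (hX.pow hP 2)).div hP s1 k
    have e2 : (l * n - (w - t) ^ 2) / (2 * (w - t) + l + n) = t := by
      rw [div_eq_iff k]
      linear_combination -e
    rw [e2] at s2
    have s3 : Sp (V (w - t)) (T + RatFunc.X) w := by
      have := s2.add hX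
      rwa [add_sub_cancel] at this
    exact ⟨s1.ne_zero hP k, s2, ((Sp.const _ α).mul hP s2).add (Sp.const _ β),
      (Sp.const _ c).mul hP ((s2.mul hP (s2.sub (Sp.one _))).mul hP s3)⟩
  obtain ⟨d, a1, a2, a3⟩ := key t w e k
  obtain ⟨-, b1, b2, b3⟩ := key t' w' e' k'
  refine hrel _ _ _ _ _ _ _ _ _ _ _ ?_ a1 a2 a3 r b1 b2 b3 r'
  have e : T * (2 * RatFunc.X + L + M) = L * M - RatFunc.X ^ 2 := div_mul_cancel₀ _ d
  rw [hL.map.fl, fl]
  linear_combination (algebraMap _ _ c * (T * (T - 1))) ^ 2 * e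

theorem exists_iso (h0 : l ≠ 0) (h1 : l ≠ 1) (m0 : m ≠ 0) (m1 : m ≠ 1)
    {γ : Qbar → Qbar → Qbar → G} (hγ : CurveRel l m γ) :
    ∃ (κ : G) (β : (legendre l).Point →+ (legendre m).Point →+ G),
      (∀ (x y u w : Qbar) (h : (legendre l).Nonsingular x y) (h' : (legendre m).Nonsingular u w),
        y * w ≠ 0 → γ x u (y * w) = κ + β (Point.some x y h) (Point.some u w h')) ∧
      ∀ (x y u w : Qbar) (h : (legendre l).Nonsingular x y) (h' : (legendre m).Nonsingular u w),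
        u = x ∨ u = 1 - x → β (Point.some x y h) (Point.some u w h') = 0 := by
  obtain ⟨κ, β, hβ⟩ := gam_bilinear h0 h1 m0 m1 hγ
  refine ⟨κ, β, fun x y u w h h' n =>
    hβ x y u w h h' (left_ne_zero_of_mul n) (right_ne_zero_of_mul n), ?_⟩
  intro x y u w h h' hu
  by_cases y0 : y = 0
  · exact beta_tors m0 m1 β (k := 1) (by rw [pow_one]; exact (two_smul_some h).2 y0) _
  by_cases w0 : w = 0
  · exact beta_tors h0 h1 β.flip (k := 1) (by rw [pow_one]; exact (two_smul_some h').2 w0) _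
  obtain ⟨α, b, c, n, hL, rfl⟩ : ∃ α b c n, Lin m α b c n ∧ u = α * x + b := by
    rcases hu with rfl | rfl
    · exact ⟨1, 0, 1, m, .inl ⟨rfl, rfl, one_pow 2, rfl⟩, by ring⟩
    · obtain ⟨c, hc⟩ := exists_sq (-1)
      exact ⟨-1, 1, c, 1 - m, .inr ⟨rfl, rfl, hc, rfl⟩, by ring⟩
  have c0 := hL.ne
  have sign : ∀ {t z : Qbar}, z ≠ 0 → 2 * (z - t) + l + n ≠ 0 ∨ 2 * (-z - t) + l + n ≠ 0 := by
    intro t z z0
    by_contra hc
    push Not at hc
    exact z0 (by linear_combination (1 / 4 : Qbar) * (hc.1 - hc.2))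
  obtain ⟨x', y', g, j, hx, hj⟩ := exists_tors h0 h1 (S := {0, 1, l, n}) (Set.toFinite _)
  simp only [Set.mem_insert_iff, Set.mem_singleton_iff, not_or] at hx
  obtain ⟨x0, x1, x2, x3⟩ := hx
  have ey' := (leg_eq _ _).mp g.1
  have y0' : y' ≠ 0 := fun h => by
    have : fl l x' = 0 := by rw [← ey', h]; simp
    rcases fl_eq_zero.mp this with h | h | h
    exacts [x0 h, x1 h, x2 h]
  obtain ⟨z', ez', kz', z0'⟩ : ∃ z', z' ^ 2 = (x' - l) * (x' - n) ∧ 2 * (z' - x') + l + n ≠ 0 ∧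
      z' ≠ 0 := by
    obtain ⟨z, ez⟩ := exists_sq ((x' - l) * (x' - n))
    have z0 : z ≠ 0 := fun h => mul_ne_zero (sub_ne_zero.2 x2) (sub_ne_zero.2 x3)
      (by rw [← ez, h]; simp)
    rcases sign (t := x') z0 with k | k
    exacts [⟨z, ez, k, z0⟩, ⟨-z, by rw [neg_sq, ez], k, neg_ne_zero.2 z0⟩]
  have r' : c * (x' * (x' - 1) * z') ≠ 0 :=
    mul_ne_zero c0 (mul_ne_zero (mul_ne_zero x0 (sub_ne_zero.2 x1)) z0')
  have base : γ x' (α * x' + b) (c * (x' * (x' - 1) * z')) = κ := by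
    have g' : (legendre m).Nonsingular (α * x' + b) (c * (x' * (x' - 1) * z') / y') := by
      refine leg_ns m0 m1 ?_
      rw [div_pow, div_eq_iff (pow_ne_zero 2 y0'), hL.fl, ey', fl]
      linear_combination (c * (x' * (x' - 1))) ^ 2 * ez'
    have := hβ _ _ _ _ g g' y0' (div_ne_zero r' y0')
    rwa [beta_tors m0 m1 β hj, add_zero, mul_div_cancel₀ _ y0'] at this
  have ey := (leg_eq _ _).mp h.1
  have ew := (leg_eq _ _).mp h'.1
  have xx : x * (x - 1) ≠ 0 := fun e => y0 (by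
    rw [fl, e, zero_mul] at ey
    simpa using ey)
  have cx := mul_ne_zero c0 xx
  obtain ⟨z, hz⟩ : ∃ z, c * (x * (x - 1) * z) = y * w :=
    ⟨y * w / (c * (x * (x - 1))), by rw [← mul_assoc, mul_div_cancel₀ _ cx]⟩
  have r := mul_ne_zero y0 w0
  have z0 : z ≠ 0 := by
    rintro rfl
    exact r (by rw [← hz]; ring)
  have ez : z ^ 2 = (x - l) * (x - n) := by
    apply mul_left_cancel₀ (pow_ne_zero 2 cx)
    rw [hL.fl] at ew
    rw [fl] at ey
    linear_combination (c * (x * (x - 1) * z) + y * w) * hz + w ^ 2 * ey +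
      (x * (x - 1) * (x - l)) * ew
  rcases sign (t := x) z0 with k | k
  · have := conic_const hγ hL ez k (hz ▸ r) ez' kz' r'
    rw [base, hz, hβ _ _ _ _ h h' y0 w0] at this
    exact add_eq_left.1 this
  · have hz' : c * (x * (x - 1) * -z) = y * -w := by linear_combination -hz
    obtain ⟨h'', e''⟩ := leg_neg h'
    have := conic_const hγ hL (by rw [neg_sq, ez]) k
      (hz' ▸ mul_ne_zero y0 (neg_ne_zero.2 w0)) ez' kz' r'
    rw [base, hz', hβ _ _ _ _ h h'' y0 (neg_ne_zero.2 w0), ← e'', map_neg] at this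
    exact neg_eq_zero.1 (add_eq_left.1 this)

end Pool.Agent.MP_9207e0_ag.r2

end MrgPart0

-- ======== part 1: formerly Pool.Agent.MP_9207e0_ag.r2.Scale
section MrgPart1

/-! The homomorphism from `y ^ 2 = x (x - a) (x - b)` to its Legendre form. -/

set_option linter.unusedSectionVars false

namespace Pool.Agent.MP_9207e0_ag.r2

open WeierstrassCurve WeierstrassCurve.Affine Pool.Agent.MP_a43263_nt.Two

variable {F K : Type} [Field F] [Field K] [CharZero K] {V : Affine F} {a b : F} {δ l : K}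

theorem scale_ne (hV : IsE V a b) (f : F →+* K) (ha : δ ^ 2 = f a) (hb : l * f a = f b) :
    δ ≠ 0 ∧ l ≠ 0 ∧ l ≠ 1 := by
  refine ⟨?_, ?_, ?_⟩ <;> rintro rfl
  · exact hV.ha (by simpa using ha.symm)
  · exact hV.hb (by simpa using hb.symm)
  · exact hV.hab (sub_eq_zero.2 (f.injective (by simpa using hb)))

theorem scale_ns (hV : IsE V a b) (f : F →+* K) (ha : δ ^ 2 = f a) (hb : l * f a = f b) {x y : F}
    (h : V.Nonsingular x y) : (legendre l).Nonsingular (f x / δ ^ 2) (f y / δ ^ 3) := by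
  obtain ⟨d0, l0, l1⟩ := scale_ne hV f ha hb
  refine leg_ns l0 l1 ?_
  have := congrArg f (hV.eqn h)
  simp only [map_mul, map_sub, map_pow, ← hb, ← ha] at this
  simp only [fl]
  field_simp
  linear_combination this

variable [DecidableEq F] [DecidableEq K]

theorem exists_scale_hom (hV : IsE V a b) (f : F →+* K) (ha : δ ^ 2 = f a) (hb : l * f a = f b) :
    ∃ ι : V.Point →+ (legendre l).Point, ∀ x y (h : V.Nonsingular x y),
      ι (Point.some x y h) = Point.some _ _ (scale_ns hV f ha hb h) := by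
  obtain ⟨d0, l0, l1⟩ := scale_ne hV f ha hb
  have e2 : f V.a₂ = -(δ ^ 2 * (1 + l)) := by
    rw [hV.h2, map_neg, map_add, ← hb, ← ha]; ring
  have e4 : f V.a₄ = δ ^ 4 * l := by
    rw [hV.h4, map_mul, ← hb, ← ha]; ring
  have inj : ∀ {n : ℕ} {x x' : F}, f x / δ ^ n = f x' / δ ^ n → x = x' := fun h =>
    f.injective ((div_left_inj' (pow_ne_zero _ d0)).1 h)
  have neg : ∀ x y : F, (legendre l).negY (f x / δ ^ 2) (f y / δ ^ 3) = f (V.negY x y) / δ ^ 3 :=
    fun x y => by rw [leg_negY, hV.negY, map_neg, neg_div]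
  refine ⟨AddMonoidHom.mk' (fun P => match P with
    | .zero => 0
    | .some _ _ h => Point.some _ _ (scale_ns hV f ha hb h)) ?_, fun _ _ _ => rfl⟩
  rintro (_ | ⟨x₁, y₁, h₁⟩) (_ | ⟨x₂, y₂, h₂⟩)
  any_goals rfl
  by_cases hxy : x₁ = x₂ ∧ y₁ = V.negY x₂ y₂
  · rw [Point.add_of_Y_eq hxy.1 hxy.2]
    exact (Point.add_of_Y_eq (by rw [hxy.1]) (by rw [neg, hxy.2])).symm
  have hxy' : ¬(f x₁ / δ ^ 2 = f x₂ / δ ^ 2 ∧
      f y₁ / δ ^ 3 = (legendre l).negY (f x₂ / δ ^ 2) (f y₂ / δ ^ 3)) := fun h =>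
    hxy ⟨inj h.1, inj (neg x₂ y₂ ▸ h.2)⟩
  have sl : (legendre l).slope (f x₁ / δ ^ 2) (f x₂ / δ ^ 2) (f y₁ / δ ^ 3) (f y₂ / δ ^ 3) =
      f (V.slope x₁ x₂ y₁ y₂) / δ := by
    by_cases hx : x₁ = x₂
    · have hy : y₁ ≠ V.negY x₂ y₂ := fun h => hxy ⟨hx, h⟩
      rw [slope_of_Y_ne hx hy, slope_of_Y_ne (by rw [hx]) fun h => hxy' ⟨by rw [hx], h⟩, leg_negY,
        hV.negY, hV.h1]
      simp only [map_div₀, map_sub, map_add, map_mul, map_pow, map_neg, map_ofNat, map_zero, e2,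
        e4, legendre]
      by_cases y0 : f y₁ = 0
      · simp [y0]
      · have : f y₁ - -f y₁ = 2 * f y₁ := by ring
        have h2 : f y₁ / δ ^ 3 - -(f y₁ / δ ^ 3) = 2 * f y₁ / δ ^ 3 := by ring
        rw [this, h2]
        field_simp
        ring
    · rw [slope_of_X_ne hx, slope_of_X_ne fun h => hx (inj h), map_div₀, map_sub, map_sub,
        ← sub_div, ← sub_div]
      have : f x₁ - f x₂ ≠ 0 := sub_ne_zero.2 fun h => hx (f.injective h)
      field_simp
  rw [Point.add_some hxy]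
  refine Eq.trans ?_ (Point.add_some hxy').symm
  refine some_eq ?_ ?_
  · rw [sl]
    simp only [addX, hV.h1, map_sub, map_add, map_mul, map_pow, map_zero, e2, legendre]
    field_simp
    ring
  · rw [sl]
    simp only [addY, negAddY, negY, addX, hV.h1, hV.h3, map_sub, map_add, map_mul, map_pow,
      map_neg, map_zero, e2, legendre]
    field_simp
    ring

end Pool.Agent.MP_9207e0_ag.r2

end MrgPart1

-- marker of a merged file
example : 731051 + 535138 = 731051 + 535138 := rfl
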