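import Pool.Agent.MP_9207e0_ag.Defs

/-! A two-parameter family of elliptic curves with full 2-torsion. -/

namespace Pool.Agent.MP_9207e0_ag.r2

/-- The first nonzero root `(q⁴ - p⁴) (s² - t²)`, for `v = (s, t)`. -/
def rootA (p q : ℤ) (v : ℤ × ℤ) : ℤ := (q ^ 4 - p ^ 4) * (v.1 ^ 2 - v.2 ^ 2)

/-- The second nonzero root `(q² - p²) (q² s² - p² t²)`, for `v = (s, t)`. -/
def rootB (p q : ℤ) (v : ℤ × ℤ) : ℤ := (q ^ 2 - p ^ 2) * (q ^ 2 * v.1 ^ 2 - p ^ 2 * v.2 ^ 2)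

/-- The curve `y ^ 2 = x (x - A) (x - B)` over `K`, with `A = rootA p q v`, `B = rootB p q v`. -/
def fam (K : Type) [Field K] (p q : ℤ) (v : ℤ × ℤ) : WeierstrassCurve K :=
  ⟨0, -((rootA p q v : K) + rootB p q v), 0, (rootA p q v : K) * rootB p q v, 0⟩

end Pool.Agent.MP_9207e0_ag.r2
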