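import Pool.Agent.MP_a43263_nt.RG.Cert
import Pool.Agent.MP_a43263_nt.RH.GenInj

/-! The family as an elliptic surface: all sixteen residue classes have points. -/

set_option linter.unusedSimpArgs false

noncomputable section

namespace Pool.Agent.MP_9207e0_ag.r2

open Finset Pool.Agent.MP_a43263_nt RG RG.Cert

/-- the residue classes stay different in the fibre -/
def Sep {n : ℕ} (F : Surf n) (v : ℤ × ℤ) : Prop :=
  ∀ (u u' : Fin 3 → ℚ) (y y' : Finset (Ix n)), F.InS u y → F.InS u' y' →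
    IsSquare (F.del u y 2 ((v.1 : ℚ), (v.2 : ℚ)) * F.del u' y' 2 ((v.1 : ℚ), (v.2 : ℚ))) →
    IsSquare (F.del u y 1 ((v.1 : ℚ), (v.2 : ℚ)) * F.del u' y' 1 ((v.1 : ℚ), (v.2 : ℚ))) → y ⊆ y'

/-- the surface -/
def SF (p q : ℤ) : Surf 2 where
  A := fun j => ![![p, p], ![1, 1], ![q, q]] j.1 j.2
  B := fun j => ![![-q, q], ![-1, 1], ![-p, p]] j.1 j.2
  c := ![q ^ 2 - p ^ 2, q ^ 4 - p ^ 4, q ^ 2 - p ^ 2]

/-- admissible parameters -/
structure AdmP (p q : ℤ) : Prop where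
  p0 : p ≠ 0
  q0 : q ≠ 0
  add : p + q ≠ 0
  sub : p - q ≠ 0
  sq : p ^ 2 + q ^ 2 ≠ 0

theorem adm_of {p q : ℤ} (hp : p ≠ 0) (hq : q ≠ 0) (h : p ^ 2 ≠ q ^ 2) : AdmP p q :=
  ⟨hp, hq, fun e => h (by linear_combination (p - q) * e),
    fun e => h (by linear_combination (p + q) * e), by positivity⟩

variable {p q : ℤ}

theorem AdmP.c0 (h : AdmP p q) : q ^ 2 - p ^ 2 ≠ 0 := fun e =>
  mul_ne_zero h.add h.sub (by linear_combination -e)

theorem AdmP.c1 (h : AdmP p q) : q ^ 4 - p ^ 4 ≠ 0 := fun e =>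
  mul_ne_zero h.c0 h.sq (by linear_combination e)

theorem AdmP.pre (h : AdmP p q) : Pre (SF p q) where
  pos := by norm_num
  c0 := fun i => by
    fin_cases i
    exacts [h.c0, h.c1, h.c0]
  ne := by
    have a := h.p0
    have b := h.q0
    have c := h.add
    have d := h.sub
    have e := h.sq
    have f := h.c0
    have g := mul_ne_zero a b
    rintro ⟨i, k⟩ ⟨i', k'⟩ hne
    fin_cases i <;> fin_cases k <;> fin_cases i' <;> fin_cases k' <;>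
      first
        | exact absurd rfl hne
        | (intro z; simp [Surf.LZ, Surf.rootZ, SF] at z <;> grind)
  sum := fun K _ v => by
    simp [Surf.D, Surf.L, SF, Fin.prod_univ_two]
    ring

theorem AdmP.hyp0 (h : AdmP p q) : RH.Hyp0 (SF p q) where
  ev := by decide
  pos := by norm_num
  c0 := h.pre.c0
  ne := fun j k e => by rw [L_root]; exact_mod_cast h.pre.ne j k e
  sum := h.pre.sum ℚ

def yR : Finset (Ix 2) := {(0, 0), (1, 0), (2, 0)}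
def yS : Finset (Ix 2) := {(0, 0), (1, 1), (2, 0)}
def y0 : Finset (Ix 2) := {(1, 0), (1, 1), (2, 0), (2, 1)}
def y1 : Finset (Ix 2) := {(0, 0), (0, 1), (1, 0), (1, 1)}

def uR (p q : ℤ) (i : Fin 3) : ℚ :=
  (![(p ^ 2 + q ^ 2) * (p + q), (p + q) ^ 2, (p ^ 2 + q ^ 2) * (p + q)] i : ℤ)
def uS (p q : ℤ) (i : Fin 3) : ℚ :=
  (![(p ^ 2 + q ^ 2) * -(p - q), -(p - q) ^ 2, (p ^ 2 + q ^ 2) * (p - q)] i : ℤ)
def u0 (p q : ℤ) (i : Fin 3) : ℚ :=
  (![(q ^ 4 - p ^ 4) * (q ^ 2 - p ^ 2), -(q ^ 2 - p ^ 2), -(q ^ 4 - p ^ 4)] i : ℤ)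
def u1 (p q : ℤ) (i : Fin 3) : ℚ :=
  (![q ^ 4 - p ^ 4, q ^ 2 - p ^ 2, (q ^ 2 - p ^ 2) * (q ^ 4 - p ^ 4)] i : ℤ)

theorem prod_y {M : Type} [CommMonoid M] (f : Ix 2 → M) (y : Finset (Ix 2)) (i : Fin 3) :
    ∏ j ∈ y.filter (fun j => j.1 ≠ i), f j =
      ∏ a : Fin 3, ∏ k : Fin 2, if (a, k) ∈ y ∧ a ≠ i then f (a, k) else 1 := by
  rw [← Fintype.prod_prod_type (fun j : Ix 2 => if j ∈ y ∧ j.1 ≠ i then f j else 1), ← prod_filter]
  exact prod_congr (by ext j; simp) fun _ _ => rfl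

theorem inS_int {F : Surf 2} {u : Fin 3 → ℤ} {y : Finset (Ix 2)} (h0 : ∀ i, u i ≠ 0)
    (h1 : IsSquare (u 0 * u 1 * u 2)) (h2 : ∀ i, Even (y.filter fun j => j.1 ≠ i).card)
    (h3 : ∀ i k, IsSquare (u i * AZ F y (i, k))) : F.InS (fun i => u i) y := by
  refine (inS_iff F _ _).2 ⟨fun i => by exact_mod_cast h0 i, ?_, h2, fun j => ?_⟩
  · exact_mod_cast Rat.isSquare_intCast_iff.2 h1
  · exact_mod_cast Rat.isSquare_intCast_iff.2 (h3 j.1 j.2)

theorem AdmP.inR (h : AdmP p q) : (SF p q).InS (uR p q) yR := by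
  refine inS_int (fun i => ?_) ⟨(p + q) ^ 2 * (p ^ 2 + q ^ 2), by simp; ring⟩ (by decide)
    fun i k => ?_
  · fin_cases i
    exacts [mul_ne_zero h.sq h.add, pow_ne_zero 2 h.add, mul_ne_zero h.sq h.add]
  refine ⟨![![(p + q) ^ 2 * (p - q) ^ 2 * (p ^ 2 + q ^ 2), (p + q) * (p ^ 2 + q ^ 2)],
    ![(p + q) ^ 2 * (p - q) ^ 2, (p + q) ^ 2],
    ![(p + q) ^ 2 * (p - q) ^ 2 * (p ^ 2 + q ^ 2), (p + q) * (p ^ 2 + q ^ 2)]] i k, ?_⟩
  fin_cases i <;> fin_cases k <;>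
    simp +decide [AZ, prod_y, gamZ, Surf.DZ, Surf.LZ, Surf.rootZ, SF, yR, Fin.prod_univ_three,
      Fin.prod_univ_two, -mul_eq_mul_left_iff, -mul_eq_mul_right_iff] <;> ring

theorem AdmP.inS (h : AdmP p q) : (SF p q).InS (uS p q) yS := by
  refine inS_int (fun i => ?_) ⟨(p - q) ^ 2 * (p ^ 2 + q ^ 2), by simp; ring⟩ (by decide)
    fun i k => ?_
  · fin_cases i
    exacts [mul_ne_zero h.sq (neg_ne_zero.2 h.sub), neg_ne_zero.2 (pow_ne_zero 2 h.sub),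
      mul_ne_zero h.sq h.sub]
  refine ⟨![![(p + q) ^ 2 * (p - q) ^ 2 * (p ^ 2 + q ^ 2), (p - q) * (p ^ 2 + q ^ 2)],
    ![(p - q) ^ 2, (p + q) ^ 2 * (p - q) ^ 2],
    ![(p + q) ^ 2 * (p - q) ^ 2 * (p ^ 2 + q ^ 2), (p - q) * (p ^ 2 + q ^ 2)]] i k, ?_⟩
  fin_cases i <;> fin_cases k <;>
    simp +decide [AZ, prod_y, gamZ, Surf.DZ, Surf.LZ, Surf.rootZ, SF, yS, Fin.prod_univ_three,
      Fin.prod_univ_two, -mul_eq_mul_left_iff, -mul_eq_mul_right_iff] <;> ring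

theorem AdmP.in0 (h : AdmP p q) : (SF p q).InS (u0 p q) y0 := by
  refine inS_int (fun i => ?_) ⟨(p + q) ^ 2 * (p - q) ^ 2 * (p ^ 2 + q ^ 2), by simp; ring⟩
    (by decide) fun i k => ?_
  · fin_cases i
    exacts [mul_ne_zero h.c1 h.c0, neg_ne_zero.2 h.c0, neg_ne_zero.2 h.c1]
  refine ⟨![(p + q) ^ 2 * (p - q) ^ 2 * (p ^ 2 + q ^ 2), (p + q) ^ 2 * (p - q) ^ 2,
    (p + q) ^ 2 * (p - q) ^ 2 * (p ^ 2 + q ^ 2)] i, ?_⟩
  fin_cases i <;> fin_cases k <;>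
    simp +decide [AZ, prod_y, gamZ, Surf.DZ, Surf.LZ, Surf.rootZ, SF, y0, Fin.prod_univ_three,
      Fin.prod_univ_two, -mul_eq_mul_left_iff, -mul_eq_mul_right_iff] <;> ring

theorem AdmP.in1 (h : AdmP p q) : (SF p q).InS (u1 p q) y1 := by
  refine inS_int (fun i => ?_) ⟨(p + q) ^ 2 * (p - q) ^ 2 * (p ^ 2 + q ^ 2), by simp; ring⟩
    (by decide) fun i k => ?_
  · fin_cases i
    exacts [h.c1, h.c0, mul_ne_zero h.c0 h.c1]
  refine ⟨![(p + q) ^ 2 * (p - q) ^ 2 * (p ^ 2 + q ^ 2), (p + q) ^ 2 * (p - q) ^ 2,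
    (p + q) ^ 2 * (p - q) ^ 2 * (p ^ 2 + q ^ 2)] i, ?_⟩
  fin_cases i <;> fin_cases k <;>
    simp +decide [AZ, prod_y, gamZ, Surf.DZ, Surf.LZ, Surf.rootZ, SF, y1, Fin.prod_univ_three,
      Fin.prod_univ_two, -mul_eq_mul_left_iff, -mul_eq_mul_right_iff] <;> ring

section field

variable {K : Type} [Field K] (p q) (v : K × K)

/-- the coordinates of the section; the second section is obtained for `e = -1` -/
def xR (e : K) : K := (p ^ 2 + q ^ 2) * (e * p + q) * (v.1 - e * v.2) * (q * v.1 - p * v.2)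

def wR (e : K) : K :=
  (p ^ 2 + q ^ 2) * (e * p + q) ^ 2 * (v.1 - e * v.2) * (q * v.1 - p * v.2) * (p * v.1 - q * v.2)

theorem D1_eq : (SF p q).D 1 v = (q ^ 4 - p ^ 4) * (v.1 ^ 2 - v.2 ^ 2) := by
  simp [Surf.D, Surf.L, SF, Fin.prod_univ_two, -mul_eq_mul_left_iff]
  ring

theorem D2_eq : (SF p q).D 2 v = (q ^ 2 - p ^ 2) * (q ^ 2 * v.1 ^ 2 - p ^ 2 * v.2 ^ 2) := by
  simp [Surf.D, Surf.L, SF, Fin.prod_univ_two, -mul_eq_mul_left_iff]
  ring

theorem on_R {e : K} (he : e = 1 ∨ e = -1) :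
    wR p q v e ^ 2 = xR p q v e * (xR p q v e - (SF p q).D 1 v) * (xR p q v e - (SF p q).D 2 v) := by
  rw [D1_eq, D2_eq]
  rcases he with rfl | rfl <;> simp only [xR, wR] <;> ring

variable [CharZero K]

theorem del_R : (SF p q).del (uR p q) yR 2 v = xR p q v 1 - (SF p q).D 1 v ∧
    (SF p q).del (uR p q) yR 1 v = xR p q v 1 - (SF p q).D 2 v := by
  rw [D1_eq, D2_eq]
  constructor <;>
    simp +decide [Surf.del, prod_y, uR, yR, xR, Surf.L, SF, Fin.prod_univ_three,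
      Fin.prod_univ_two, -mul_eq_mul_left_iff, -mul_eq_mul_right_iff] <;> ring

theorem del_S : (SF p q).del (uS p q) yS 2 v = xR p q v (-1) - (SF p q).D 1 v ∧
    (SF p q).del (uS p q) yS 1 v = xR p q v (-1) - (SF p q).D 2 v := by
  rw [D1_eq, D2_eq]
  constructor <;>
    simp +decide [Surf.del, prod_y, uS, yS, xR, Surf.L, SF, Fin.prod_univ_three,
      Fin.prod_univ_two, -mul_eq_mul_left_iff, -mul_eq_mul_right_iff] <;> ring

theorem del_0 : (SF p q).del (u0 p q) y0 2 v = 0 - (SF p q).D 1 v ∧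
    (SF p q).del (u0 p q) y0 1 v = 0 - (SF p q).D 2 v := by
  rw [D1_eq, D2_eq]
  constructor <;>
    simp +decide [Surf.del, prod_y, u0, y0, Surf.L, SF, Fin.prod_univ_three,
      Fin.prod_univ_two, -mul_eq_mul_left_iff, -mul_eq_mul_right_iff] <;> ring

theorem del_1 : (SF p q).del (u1 p q) y1 2 v = (SF p q).D 1 v * ((SF p q).D 1 v - (SF p q).D 2 v) ∧
    (SF p q).del (u1 p q) y1 1 v = (SF p q).D 1 v - (SF p q).D 2 v := by
  rw [D1_eq, D2_eq]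
  constructor <;>
    simp +decide [Surf.del, prod_y, u1, y1, Surf.L, SF, Fin.prod_univ_three,
      Fin.prod_univ_two, -mul_eq_mul_left_iff, -mul_eq_mul_right_iff] <;> ring

omit [CharZero K] in
theorem cover_pt {a b x y : K} (e : y ^ 2 = x * (x - a) * (x - b)) (ha : x - a ≠ 0)
    (hb : x - b ≠ 0) : Cover a b (x - a) (x - b) :=
  ⟨y, (x - a) * (x - b), (x - a) * (x - b), (x - a) * (x - b), fun h => mul_ne_zero ha hb h.2.1,
    by linear_combination (x - a) * (x - b) * e, by linear_combination (x - a) * (x - b) * e⟩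

end field

theorem AdmP.gR (h : AdmP p q) : Gd (SF p q) yR := by
  refine ⟨_, h.inR, ?_⟩
  have a := h.pre.del h.inR.1 yR 2
  have b := h.pre.del h.inR.1 yR 1
  unfold Sol
  rw [(del_R p q _).1] at a ⊢
  rw [(del_R p q _).2] at b ⊢
  exact cover_pt (on_R p q _ (.inl rfl)) a b

theorem AdmP.gS (h : AdmP p q) : Gd (SF p q) yS := by
  refine ⟨_, h.inS, ?_⟩
  have a := h.pre.del h.inS.1 yS 2
  have b := h.pre.del h.inS.1 yS 1
  unfold Sol
  rw [(del_S p q _).1] at a ⊢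
  rw [(del_S p q _).2] at b ⊢
  exact cover_pt (on_R p q _ (.inr rfl)) a b

theorem AdmP.g0 (h : AdmP p q) : Gd (SF p q) y0 := by
  refine ⟨_, h.in0, ?_⟩
  have a := h.pre.del h.in0.1 y0 2
  have b := h.pre.del h.in0.1 y0 1
  unfold Sol
  rw [(del_0 p q _).1] at a ⊢
  rw [(del_0 p q _).2] at b ⊢
  exact cover_pt (y := 0) (by ring) a b

theorem AdmP.g1 (h : AdmP p q) : Gd (SF p q) y1 := by
  refine ⟨_, h.in1, ?_⟩
  unfold Sol
  rw [(del_1 p q _).1, (del_1 p q _).2]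
  exact ⟨1, 0, (SF p q).D 1 gen - (SF p q).D 2 gen, (SF p q).D 1 gen - (SF p q).D 2 gen, by simp,
    by ring, by ring⟩

theorem AdmP.cert (h : AdmP p q) : {y | ∃ u, (SF p q).InS u y}.ncard = 2 ^ 4 ∧
    ∀ u y, (SF p q).InS u y → Sol (SF p q) u y := by
  refine Cert.cert h.pre (b := ![symmDiff yR yS, symmDiff yR y0, symmDiff (symmDiff y0 y1) yS,
    symmDiff (symmDiff yR yS) y0]) (pv := ![(1, 0), (0, 0), (0, 1), (2, 0)]) (by decide)
    (fun i => ?_) fun u y hy hp => ?_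
  · fin_cases i
    exacts [h.gR.mul h.pre h.gS, h.gR.mul h.pre h.g0, (h.g0.mul h.pre h.g1).mul h.pre h.gS,
      (h.gR.mul h.pre h.gS).mul h.pre h.g0]
  · have := hy.2.2.1
    revert hp this
    generalize y = z
    revert z
    decide +kernel

end Pool.Agent.MP_9207e0_ag.r2
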