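import Pool.Agent.MP_9207e0_ag.r2.Fam
import Pool.Agent.MP_a43263_nt.RH.GenAll

/-! The two sections stay independent in a fibre in which the residue classes are different. -/

set_option linter.unusedSectionVars false

noncomputable section

namespace Pool.Agent.MP_9207e0_ag.r2

open Finset Pool.Agent.MP_a43263_nt RG RG.Cert RH.Rkk Two WeierstrassCurve.Affine

section rep

variable {n : ℕ} {F : Surf n} {v : ℚ × ℚ} [DecidableEq ℚ] {V : WeierstrassCurve.Affine ℚ}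

theorem del_mul_at (u u' : Fin 3 → ℚ) (y y' : Finset (Ix n)) (i : Fin 3) :
    F.del u y i v * F.del u' y' i v = F.del (u * u') (symmDiff y y') i v *
      (∏ j ∈ (y ∩ y').filter (fun j => j.1 ≠ i), F.L j v) ^ 2 := by
  unfold Surf.del
  rw [mul_mul_mul_comm, prod_sd', Pi.mul_apply, Rat.cast_mul]
  ring

theorem sq_mul_at (hL : ∀ j, F.L j v ≠ 0) {u u' : Fin 3 → ℚ} {y y' : Finset (Ix n)} {i : Fin 3}
    {d : ℚ} (h : IsSquare (d * (F.del u y i v * F.del u' y' i v))) :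
    IsSquare (d * F.del (u * u') (symmDiff y y') i v) := by
  rw [del_mul_at, ← mul_assoc] at h
  exact sq_of (prod_ne_zero_iff.2 fun j _ => hL j) h

/-- the point `X` lies in the class `y` -/
def Rep (F : Surf n) (v : ℚ × ℚ) (X : V.Point) (y : Finset (Ix n)) : Prop :=
  ∃ u, F.InS u y ∧ IsSquare (dl (F.D 1 v) (F.D 2 v) X * F.del u y 2 v) ∧
    IsSquare (dl (F.D 2 v) (F.D 1 v) X * F.del u y 1 v)

theorem inS_empty : F.InS 1 ∅ :=
  (inS_iff F _ _).2 ⟨by simp, by simp, by simp, by simp [AZ]⟩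

theorem rep_zero : Rep F v (0 : V.Point) ∅ :=
  ⟨1, inS_empty, by simp [Surf.del, dl], by simp [Surf.del, dl]⟩

theorem Rep.add (hF : Pre F) (hV : IsE V (F.D 1 v) (F.D 2 v)) (hL : ∀ j, F.L j v ≠ 0)
    {X X' : V.Point} {y y' : Finset (Ix n)} (h : Rep F v X y) (h' : Rep F v X' y') :
    Rep F v (X + X') (symmDiff y y') := by
  obtain ⟨u, a, b, c⟩ := h
  obtain ⟨u', a', b', c'⟩ := h'
  exact ⟨u * u', inS_mul hF a a',
    sq_mul_at hL (tri (dl_add hV X X') b b' (dl_ne hV _) (dl_ne hV _)),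
    sq_mul_at hL (tri (dl_add hV.symm X X') c c' (dl_ne hV.symm _) (dl_ne hV.symm _))⟩

theorem Rep.two {w : ℤ × ℤ} (hS : Sep F w) (hV : IsE V (F.D 1 (w.1, w.2)) (F.D 2 (w.1, w.2)))
    {Z : V.Point} {y : Finset (Ix n)} (h : Rep F (w.1, w.2) (2 • Z) y) : y = ∅ := by
  obtain ⟨u, a, b, c⟩ := h
  obtain ⟨s, t⟩ := (ker hV _).2 ⟨Z, rfl⟩
  refine subset_empty.1 (hS u 1 y ∅ a inS_empty ?_ ?_)
  · simpa [Surf.del] using canc b (dl_ne hV _) s
  · simpa [Surf.del] using canc c (dl_ne hV.symm _) t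

theorem rep_of {x w : ℚ} (h : V.Nonsingular x w) {u : Fin 3 → ℚ} {y : Finset (Ix n)}
    (hL : ∀ j, F.L j v ≠ 0) (hu : F.InS u y) (h2 : F.del u y 2 v = x - F.D 1 v)
    (h1 : F.del u y 1 v = x - F.D 2 v) : Rep F v (Point.some x w h) y := by
  have ne : ∀ i, F.del u y i v ≠ 0 := fun i =>
    mul_ne_zero (by exact_mod_cast hu.1 i) (prod_ne_zero_iff.2 fun j _ => hL j)
  refine ⟨u, hu, ?_, ?_⟩
  · simp only [dl]
    rw [if_neg (sub_ne_zero.1 (h2 ▸ ne 2)), h2]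
    exact ⟨_, rfl⟩
  · simp only [dl]
    rw [if_neg (sub_ne_zero.1 (h1 ▸ ne 1)), h1]
    exact ⟨_, rfl⟩

end rep

variable {p q : ℤ} [DecidableEq ℚ] {V : WeierstrassCurve.Affine ℚ}

theorem rep_tors (h : AdmP p q) {v : ℚ × ℚ} (hV : IsE V ((SF p q).D 1 v) ((SF p q).D 2 v))
    (hL : ∀ j, (SF p q).L j v ≠ 0) {Z : V.Point} (hZ : 2 • Z = 0) :
    Z = 0 ∨ ∃ y, Rep (SF p q) v Z y ∧ (y = y0 ∨ y = y1 ∨ y = symmDiff y0 y1) := by
  rcases Z with _ | ⟨x, w, g⟩
  · exact .inl rfl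
  right
  have w0 : w = 0 := by
    by_contra hw
    have hn : w ≠ V.negY x w := by
      rw [hV.negY]
      exact fun e => hw (by linear_combination e / 2)
    rw [two_nsmul, Point.add_self_of_Y_ne hn] at hZ
    exact Point.some_ne_zero _ hZ
  have e := hV.eqn g
  have hab := hV.hab
  have hba := hV.symm.hab
  rw [w0, zero_pow two_ne_zero, eq_comm, mul_eq_zero, mul_eq_zero, sub_eq_zero, sub_eq_zero] at e
  rcases e with (e | e) | e
  · exact ⟨y0, rep_of g hL h.in0 (e ▸ (del_0 p q v).1) (e ▸ (del_0 p q v).2), .inl rfl⟩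
  · refine ⟨y1, ⟨_, h.in1, ?_, ?_⟩, .inr (.inl rfl)⟩
    · simp only [dl]
      rw [if_pos e, (del_1 p q v).1]
      exact ⟨_, rfl⟩
    · simp only [dl]
      rw [if_neg (e ▸ sub_ne_zero.1 hab), (del_1 p q v).2, e]
      exact ⟨_, rfl⟩
  · refine ⟨_, ⟨_, inS_mul h.pre h.in0 h.in1, sq_mul_at hL ?_, sq_mul_at hL ?_⟩, .inr (.inr rfl)⟩
    · simp only [dl]
      rw [if_neg (e ▸ sub_ne_zero.1 hba), (del_0 p q v).1, (del_1 p q v).1, e]
      exact ⟨(SF p q).D 1 v * ((SF p q).D 1 v - (SF p q).D 2 v), by ring⟩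
    · simp only [dl]
      rw [if_pos e, (del_0 p q v).2, (del_1 p q v).2]
      exact ⟨(SF p q).D 2 v * ((SF p q).D 1 v - (SF p q).D 2 v), by ring⟩

theorem indep (h : AdmP p q) {w : ℤ × ℤ} (hS : Sep (SF p q) w)
    (hV : IsE V ((SF p q).D 1 (w.1, w.2)) ((SF p q).D 2 (w.1, w.2)))
    (hL : ∀ j, (SF p q).L j ((w.1 : ℚ), (w.2 : ℚ)) ≠ 0) {R S : V.Point}
    (hR : Rep (SF p q) (w.1, w.2) R yR) (hS' : Rep (SF p q) (w.1, w.2) S yS) (k : ℕ) :
    ∀ m n : ℤ, m.natAbs + n.natAbs ≤ k → 2 • (m • R + n • S) = 0 → m = 0 ∧ n = 0 := by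
  induction k with
  | zero => intro m n a _; omega
  | succ k ih =>
    intro m n a hZ
    have par : ∀ (X : V.Point) (y : Finset (Ix 2)) (j : ℤ), Rep (SF p q) (w.1, w.2) X y →
        ∃ z, Rep (SF p q) (w.1, w.2) ((j % 2) • X) z ∧ (j % 2 = 0 ∧ z = ∅ ∨ z = y) := by
      intro X y j hX
      rcases Int.emod_two_eq_zero_or_one j with e | e
      · exact ⟨∅, by rw [e, zero_zsmul]; exact rep_zero, .inl ⟨e, rfl⟩⟩
      · exact ⟨y, by rwa [e, one_smul], .inr rfl⟩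
    obtain ⟨z1, r1, c1⟩ := par R yR m hR
    obtain ⟨z2, r2, c2⟩ := par S yS n hS'
    have r := r1.add h.pre hV hL r2
    have e1 : m • R + n • S = 2 • ((m / 2) • R + (n / 2) • S) + ((m % 2) • R + (n % 2) • S) := by
      conv_lhs => rw [← Int.mul_ediv_add_emod m 2, ← Int.mul_ediv_add_emod n 2]
      module
    have e2 : (m % 2) • R + (n % 2) • S + (m • R + n • S) =
        2 • (-((m / 2) • R + (n / 2) • S)) := by
      rw [← sub_eq_zero, ← hZ, two_nsmul (m • R + n • S)]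
      nth_rw 2 [e1]
      module
    rcases rep_tors h hV hL hZ with z | ⟨y, ry, cy⟩
    · rw [z, add_zero] at e2
      rw [e2] at r
      have := r.two hS hV
      have c : m % 2 = 0 ∧ n % 2 = 0 := by
        rcases c1 with ⟨c1, rfl⟩ | rfl <;> rcases c2 with ⟨c2, rfl⟩ | rfl
        · exact ⟨c1, c2⟩
        all_goals exact absurd this (by decide)
      rw [z, c.1, c.2, zero_zsmul, zero_zsmul, add_zero, add_zero] at e1
      by_cases h0 : m = 0 ∧ n = 0
      · exact h0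
      have := ih (m / 2) (n / 2) (by omega) e1.symm
      omega
    · have r' := r.add h.pre hV hL ry
      rw [e2] at r'
      have := r'.two hS hV
      rcases c1 with ⟨-, rfl⟩ | rfl <;> rcases c2 with ⟨-, rfl⟩ | rfl <;>
        rcases cy with rfl | rfl | rfl <;> exact absurd this (by decide)

theorem span_of_rank {A : Type} [AddCommGroup A] (hA : Module.rank ℤ A = 2) {R S : A}
    (h : ∀ m n : ℤ, m • R + n • S = 0 → m = 0 ∧ n = 0) (X : A) :
    ∃ N m n : ℤ, N ≠ 0 ∧ N • X = m • R + n • S := by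
  by_contra hc
  push Not at hc
  have : LinearIndependent ℤ ![X, R, S] := by
    rw [Fintype.linearIndependent_iff]
    intro g hg
    simp only [Fin.sum_univ_three, Matrix.cons_val_zero, Matrix.cons_val_one,
      Matrix.cons_val] at hg
    have g0 : g 0 = 0 := by
      by_contra g0
      exact hc (g 0) (-g 1) (-g 2) g0 (by rw [← sub_eq_zero, ← hg]; module)
    rw [g0, zero_smul, zero_add] at hg
    have := h _ _ hg
    intro i
    fin_cases i
    exacts [g0, this.1, this.2]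
  have := this.cardinal_le_rank
  rw [hA] at this
  simp at this
  norm_cast at this

/-- the rational points are spanned by points with Legendre coordinates `ξ` and `1 - ξ` -/
def Spans (V : WeierstrassCurve.Affine ℚ) (a ξ : ℚ) : Prop :=
  ∃ y g z g', ∀ X : V.Point, ∃ N m n : ℤ, N ≠ 0 ∧
    N • X = m • Point.some (ξ * a) y g + n • Point.some ((1 - ξ) * a) z g'

/-- the rational points of a good fibre -/
theorem fibre_points (h : AdmP p q) {w : ℤ × ℤ} (hS : Sep (SF p q) w) {a b : ℚ}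
    (ha : a = (SF p q).D 1 ((w.1 : ℚ), (w.2 : ℚ))) (hb : b = (SF p q).D 2 ((w.1 : ℚ), (w.2 : ℚ)))
    (hV : IsE V a b) (hr : Module.rank ℤ V.Point = 2) :
    Spans V a ((q : ℚ) ^ 2 / (p ^ 2 + q ^ 2)) := by
  subst ha hb
  obtain ⟨s, t⟩ := w
  dsimp only at hV ⊢
  have hD : ∀ i, (SF p q).D i ((s : ℚ), (t : ℚ)) ≠ 0 := fun i => by
    fin_cases i
    exacts [h.pre.sum ℚ _ ▸ hV.hab, hV.ha, hV.hb]
  have hL : ∀ j, (SF p q).L j ((s : ℚ), (t : ℚ)) ≠ 0 := fun j =>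
    prod_ne_zero_iff.1 (right_ne_zero_of_mul (hD j.1)) j.2 (mem_univ _)
  have g1 := hV.ns (on_R p q ((s : ℚ), (t : ℚ)) (.inl rfl))
  have g2 := hV.ns (on_R p q ((s : ℚ), (t : ℚ)) (.inr rfl))
  have r1 := rep_of g1 hL h.inR (del_R p q _).1 (del_R p q _).2
  have r2 := rep_of g2 hL h.inS (del_S p q _).1 (del_S p q _).2
  have ind : ∀ m n : ℤ, m • Point.some _ _ g1 + n • Point.some _ _ g2 = 0 → m = 0 ∧ n = 0 :=
    fun m n e => indep h hS hV hL r1 r2 _ m n le_rfl (by rw [e, nsmul_zero])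
  have hx : xR p q ((s : ℚ), (t : ℚ)) 1 ≠ xR p q ((s : ℚ), (t : ℚ)) (-1) := fun e => by
    rcases (Point.X_eq_iff (h₁ := g1) (h₂ := g2)).1 e with e | e
    · exact one_ne_zero (ind 1 (-1) (by rw [e]; module)).1
    · exact one_ne_zero (ind 1 1 (by rw [e]; module)).1
  have P1 : (p : ℚ) ^ 2 + q ^ 2 ≠ 0 := by exact_mod_cast h.sq
  have l1 : V.slope (xR p q ((s : ℚ), (t : ℚ)) 1) (xR p q ((s : ℚ), (t : ℚ)) (-1))
      (wR p q ((s : ℚ), (t : ℚ)) 1)
      (V.negY (xR p q ((s : ℚ), (t : ℚ)) (-1)) (wR p q ((s : ℚ), (t : ℚ)) (-1))) =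
      (p ^ 2 + q ^ 2) * s - 2 * p * q * t := by
    rw [slope_of_X_ne hx, hV.negY, div_eq_iff (sub_ne_zero.2 hx)]
    simp only [xR, wR]; ring
  have l2 : V.slope (xR p q ((s : ℚ), (t : ℚ)) 1) (xR p q ((s : ℚ), (t : ℚ)) (-1))
      (wR p q ((s : ℚ), (t : ℚ)) 1) (wR p q ((s : ℚ), (t : ℚ)) (-1)) =
      2 * p * q * s - (p ^ 2 + q ^ 2) * t := by
    rw [slope_of_X_ne hx, div_eq_iff (sub_ne_zero.2 hx)]
    simp only [xR, wR]; ring
  have e1 := Point.add_of_X_ne (h₁ := g1) (h₂ := (nonsingular_neg ..).mpr g2) hx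
  rw [← Point.neg_some g2, ← sub_eq_add_neg] at e1
  have e2 := Point.add_of_X_ne (h₁ := g1) (h₂ := g2) hx
  have cong : ∀ {x x' y : ℚ} (g : V.Nonsingular x y), x = x' →
      ∃ g' : V.Nonsingular x' y, Point.some x y g = Point.some x' y g' := by
    rintro x _ y g rfl
    exact ⟨g, rfl⟩
  obtain ⟨k1, f1⟩ : ∃ k, Point.some _ _ g1 - Point.some _ _ g2 = Point.some
      ((q : ℚ) ^ 2 / (p ^ 2 + q ^ 2) * (SF p q).D 1 ((s : ℚ), (t : ℚ))) _ k := by
    rw [e1]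
    refine cong _ ?_
    rw [l1, addX, hV.h1, hV.h2, D1_eq, D2_eq]
    simp only [xR]
    field_simp
    ring
  obtain ⟨k2, f2⟩ : ∃ k, Point.some _ _ g1 + Point.some _ _ g2 = Point.some
      ((1 - (q : ℚ) ^ 2 / (p ^ 2 + q ^ 2)) * (SF p q).D 1 ((s : ℚ), (t : ℚ))) _ k := by
    rw [e2]
    refine cong _ ?_
    rw [l2, addX, hV.h1, hV.h2, D1_eq, D2_eq]
    simp only [xR]
    field_simp
    ring
  refine ⟨_, k1, _, k2, fun X => ?_⟩
  obtain ⟨N, m, n, N0, e⟩ := span_of_rank hr ind X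
  refine ⟨2 * N, m - n, m + n, mul_ne_zero two_ne_zero N0, ?_⟩
  rw [← f1, ← f2, mul_smul, e]
  module

end Pool.Agent.MP_9207e0_ag.r2
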