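import Pool.Agent.MP_9207e0_ag.r2.Scale
import Pool.Agent.MP_9207e0_ag.r2.Ind

/-! The points of the Kummer surface over the rational points of two good fibres. -/

set_option linter.unusedSectionVars false

namespace Pool.Agent.MP_9207e0_ag.r2

open AlgebraicGeometry CategoryTheory WeierstrassCurve.Affine Pool.Agent.MP_a43263_nt.Two

variable [DecidableEq ℚ] [DecidableEq Qbar]

/-- a point with a rational multiple, seen on the Legendre model -/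
theorem hull {a b ξ : ℚ} {V : WeierstrassCurve.Affine ℚ} (hV : IsE V a b)
    {W : WeierstrassCurve.Affine Qbar} (hW : IsE W (a : Qbar) (b : Qbar)) (hp : Spans V a ξ)
    {l : Qbar} (hl : l = (b : Qbar) / a) {x y : Qbar} (h : W.Nonsingular x y) {k : ℤ} (hk : k ≠ 0)
    (ha : ∀ c d g, k • Point.some x y h = Point.some c d g → (∃ e : ℚ, c = e) ∧ ∃ e : ℚ, d = e) :
    l ≠ 0 ∧ l ≠ 1 ∧ ∃ (y' : Qbar) (g : (legendre l).Nonsingular (x / a) y') (y₁ y₂ : Qbar)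
      (g₁ : (legendre l).Nonsingular ξ y₁) (g₂ : (legendre l).Nonsingular (1 - ξ) y₂) (N m n : ℤ),
      N ≠ 0 ∧ N • Point.some _ _ g = m • Point.some _ _ g₁ + n • Point.some _ _ g₂ := by
  obtain ⟨y1, g1, y2, g2, sp⟩ := hp
  obtain ⟨δ, hδ⟩ := exists_sq (a : Qbar)
  have a0 : (a : Qbar) ≠ 0 := hW.ha
  have hl' : l * a = b := by rw [hl, div_mul_cancel₀ _ a0]
  obtain ⟨d0, l0, l1⟩ := scale_ne hW (RingHom.id Qbar) hδ hl'
  obtain ⟨ι, hι⟩ := exists_scale_hom hV (Rat.castHom Qbar) hδ hl'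
  obtain ⟨τ, hτ⟩ := exists_scale_hom hW (RingHom.id Qbar) hδ hl'
  have rat : ∀ (Z : W.Point), (∀ c d g, Z = Point.some c d g → (∃ e : ℚ, c = e) ∧ ∃ e : ℚ, d = e) →
      ∃ Y : V.Point, τ Z = ι Y := by
    rintro (_ | ⟨c, d, g⟩) hZ
    · exact ⟨0, (map_zero τ).trans (map_zero ι).symm⟩
    obtain ⟨⟨c, rfl⟩, d, rfl⟩ := hZ c d g rfl
    have : V.Nonsingular c d := hV.ns (by exact_mod_cast hW.eqn g)
    exact ⟨Point.some c d this, by rw [hτ, hι]; rfl⟩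
  obtain ⟨Y, hY⟩ := rat _ ha
  obtain ⟨N, m, n, N0, e⟩ := sp Y
  have e' := congrArg ι e
  rw [map_add, map_zsmul, map_zsmul, map_zsmul, ← hY, map_zsmul, hι, hι, hτ, ← mul_smul] at e'
  obtain ⟨k0, f0⟩ := some_congr (scale_ns hW (RingHom.id Qbar) hδ hl' h) (x' := x / a)
    (by rw [hδ]; rfl) rfl
  obtain ⟨k1, f1⟩ := some_congr (scale_ns hV (Rat.castHom Qbar) hδ hl' g1) (x' := (ξ : Qbar))
    (by rw [hδ, map_mul]; exact mul_div_cancel_right₀ _ a0) rfl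
  obtain ⟨k2, f2⟩ := some_congr (scale_ns hV (Rat.castHom Qbar) hδ hl' g2) (x' := 1 - (ξ : Qbar))
    (by rw [hδ, map_mul, map_sub, map_one]; exact mul_div_cancel_right₀ _ a0) rfl
  rw [f0, f1, f2] at e'
  exact ⟨l0, l1, _, k0, _, _, k1, k2, _, m, n, mul_ne_zero N0 hk, e'⟩

theorem kummer {l l' ξ : Qbar} (l0 : l ≠ 0) (l1 : l ≠ 1) (m0 : l' ≠ 0) (m1 : l' ≠ 1)
    {X : Scheme.{0}} (s : X ⟶ Spec (CommRingCat.of Qbar)) [IsProper s]
    (j : Spec (CommRingCat.of (KummerRing l l')) ⟶ X)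
    (hj : j ≫ s = Spec.map (CommRingCat.ofHom (algebraMap Qbar (KummerRing l l'))))
    (P Q : KummerRing l l' →ₐ[Qbar] Qbar) {x u : Qbar} (p0 : coord P 0 = x) (p1 : coord P 1 = u)
    (q : coord Q 0 = coord Q 1)
    (ha : ∃ (y : Qbar) (g : (legendre l).Nonsingular x y) (y₁ y₂ : Qbar)
      (g₁ : (legendre l).Nonsingular ξ y₁) (g₂ : (legendre l).Nonsingular (1 - ξ) y₂) (N m n : ℤ),
      N ≠ 0 ∧ N • Point.some _ _ g = m • Point.some _ _ g₁ + n • Point.some _ _ g₂)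
    (hb : ∃ (w : Qbar) (g : (legendre l').Nonsingular u w) (y₁ y₂ : Qbar)
      (g₁ : (legendre l').Nonsingular ξ y₁) (g₂ : (legendre l').Nonsingular (1 - ξ) y₂)
      (N m n : ℤ),
      N ≠ 0 ∧ N • Point.some _ _ g = m • Point.some _ _ g₁ + n • Point.some _ _ g₂) :
    ∃ n : ℤ, n ≠ 0 ∧ n • (Finsupp.single (j (closedPt P)) (1 : ℤ) -
      Finsupp.single (j (closedPt Q)) 1) ∈ AddSubgroup.closure {D | PrincipalCycle s D} := by
  obtain ⟨y, g, y1, y2, g1, g2, N, m, n, N0, e⟩ := ha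
  obtain ⟨w, g', w1, w2, k1, k2, N', m', n', N0', e'⟩ := hb
  obtain ⟨κ, β, b1, b2⟩ := exists_iso l0 l1 m0 m1 (curveRel_cl s j hj)
  have z : (N' * N) • β (Point.some _ _ g) (Point.some _ _ g') = 0 := by
    rw [mul_smul, ← AddMonoidHom.zsmul_apply, ← map_zsmul, ← map_zsmul, e, e']
    simp only [map_add, map_zsmul, AddMonoidHom.add_apply, AddMonoidHom.zsmul_apply]
    rw [b2 _ _ _ _ g1 k1 (.inl rfl), b2 _ _ _ _ g1 k2 (.inr rfl), b2 _ _ _ _ g2 k2 (.inl rfl),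
      b2 _ _ _ _ g2 k1 (.inr (by ring))]
    simp
  have cQ : cl s j (coord Q 0) (coord Q 1) (coord Q 2) = κ := by
    have e : coord Q 2 ^ 2 = fl l (coord Q 0) * fl l' (coord Q 1) := hom_eq1 Q
    have r0 : coord Q 2 ≠ 0 := hom_ne Q
    obtain ⟨c, hc⟩ := exists_sq (fl l (coord Q 0))
    have c0 : c ≠ 0 := fun h => r0 (by
      rw [← hc, h] at e
      simpa using e)
    have h2 : (legendre l').Nonsingular (coord Q 1) (coord Q 2 / c) := leg_ns m0 m1 (by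
      rw [div_pow, e, ← hc, mul_div_cancel_left₀ _ (pow_ne_zero 2 c0)])
    have := b1 _ _ _ _ (leg_ns l0 l1 hc) h2 (by rwa [mul_div_cancel₀ _ c0])
    rwa [b2 _ _ _ _ _ h2 (.inl q.symm), add_zero, mul_div_cancel₀ _ c0] at this
  have cP : ∃ B, (N' * N) • B = 0 ∧ cl s j (coord P 0) (coord P 1) (coord P 2) = κ + B := by
    have e : coord P 2 ^ 2 = fl l (coord P 0) * fl l' (coord P 1) := hom_eq1 P
    have r0 : coord P 2 ≠ 0 := hom_ne P
    rw [p0, p1, ← (leg_eq _ _).mp g.1, ← (leg_eq _ _).mp g'.1, ← mul_pow] at e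
    rw [p0, p1]
    rcases sq_eq_sq_iff_eq_or_eq_neg.1 e with e | e
    · exact ⟨_, z, e ▸ b1 _ _ _ _ g g' (e ▸ r0)⟩
    · obtain ⟨g'', f⟩ := leg_neg g'
      rw [← mul_neg] at e
      refine ⟨_, ?_, e ▸ b1 _ _ _ _ g g'' (e ▸ r0)⟩
      rw [← f, map_neg, zsmul_neg, z, neg_zero]
  obtain ⟨B, hB, cP⟩ := cP
  rw [cl_hom] at cP cQ
  refine ⟨N' * N, mul_ne_zero N0' N0, (QuotientAddGroup.eq_zero_iff _).1 ?_⟩
  rw [QuotientAddGroup.mk_zsmul, QuotientAddGroup.mk_sub, cP, cQ, add_sub_cancel_left, hB]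

end Pool.Agent.MP_9207e0_ag.r2
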