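import Pool.Agent.MP_a43263_nt.RH.OneAll
import Pool.Agent.MP_9207e0_ag.r2.Fam

/-! A positive proportion of fibres have the generic rank, and the residue classes stay different
in these fibres. -/

set_option autoImplicit false

noncomputable section

namespace Pool.Agent.MP_9207e0_ag.r2

open Finset Filter Polynomial Pool.Agent.MP_a43263_nt
open R2 (Ker Sc Core Shape)
open RH RG RG.FIN

open Classical in
def Main40 : Prop := ∀ (n r : ℕ) (F : Surf n) (v₀ : ℤ × ℤ), Hyp3 F r v₀ →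
  ∃ c : ℝ, 0 < c ∧ ∀ᶠ H : ℕ in atTop,
  c * (H : ℝ) ^ 2 ≤ (((Icc (-H : ℤ) H ×ˢ Icc (-H : ℤ) H).filter fun v : ℤ × ℤ =>
    IsCoprime v.1 v.2 ∧ Good r (F.fibre v) ∧ Sep F v).card : ℝ)

def Main4 : Prop := ∀ (n r : ℕ) (F : Surf n) (v₀ : ℤ × ℤ), Hyp3 F r v₀ →
  ∃ c : ℝ, 0 < c ∧ ∀ᶠ H : ℕ in atTop,
  ∃ T ⊆ Icc (-H : ℤ) H ×ˢ Icc (-H : ℤ) H, c * (H : ℝ) ^ 2 ≤ T.card ∧
    (∀ v ∈ T, IsCoprime v.1 v.2 ∧ Good r (F.fibre v) ∧ Sep F v) ∧
    ∀ v ∈ T, ∀ w ∈ T, ∀ [(F.fibre v).IsElliptic] [(F.fibre w).IsElliptic],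
      (F.fibre v).j = (F.fibre w).j → v = w

open FIN3 in
theorem fin4 : FRAMEStmt → PAR2Stmt → POSStmt → MKV2Stmt → BASE3Stmt → PT2Stmt → BR3Stmt →
    GEO3Stmt → GOOD3Stmt → Main40 := by
  classical
  intro frame par pos mkv base pt br geo good n r F v₀ h3F
  have hF := h3F.h0
  obtain ⟨N, hpre, base⟩ := base n F v₀ hF h3F.prim h3F.nz
  obtain ⟨μ, hμ⟩ : ∃ μ : Ix n → ℤ, μ = fun j => F.LZ j v₀ := ⟨_, rfl⟩
  rw [← hμ] at hpre base
  have sm : ∀ i, Smooth N (bv F μ i) := fun i => by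
    refine ⟨mul_ne_zero (hpre.sc i).1 (prod_ne_zero_iff.2 fun k _ => (hpre.sm _).1),
      fun p hp h => ?_⟩
    have hp' := Nat.prime_iff_prime_int.1 hp
    rcases hp'.dvd_or_dvd h with h | h
    · exact (hpre.sc i).2 p hp h
    · obtain ⟨k, -, h⟩ := (hp'.dvd_finsetProd_iff _).1 h
      exact (hpre.sm _).2 p hp h
  obtain ⟨Fr, hFr⟩ := frame N (bv F μ 1) (bv F μ 2) hpre.pos hpre.two (sm 1).1 (sm 2).1
    (hpre.sum ▸ sm 0)
  obtain ⟨B, rfl, rfl, hB, hpar⟩ := base (r + Fr.par)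
  obtain ⟨P₀, J₀, hpos⟩ := pos n B.e
  obtain ⟨M, hM, hP⟩ := FIN.exists_fits2 hB (P₀ + 2 * Fr.k)
  have hk : 2 * Fr.k ≤ M := ((Nat.le_add_left _ _).trans (Nat.self_le_factorial _)).trans
    (Nat.le_of_dvd hM.pos hP)
  obtain ⟨hD, hbr⟩ := br n F B Fr M hF hB hM hFr hk
  obtain ⟨δ, hδ, hpos⟩ := hpos _ hD.ok rfl fun p hp h =>
    (Nat.dvd_factorial hp.pos (by omega)).trans hP
  obtain ⟨J₁, hJ₁⟩ := mkv n _ r δ hD (geo n r F v₀ B Fr M h3F hμ hB hFr hD) (fun l hl he => by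
    obtain ⟨h1, h2, h3⟩ := hbr l hl
    obtain ⟨κ, k1, k2⟩ := par n _ _ _ Fr _ _ _ hFr h1 h2
    obtain ⟨m, hm⟩ := he
    rw [← union_assoc] at k1
    exact ⟨κ, k1, by omega⟩) hF.ev hδ
  have h2 := two hF
  obtain ⟨t, ht⟩ := (hpos (J₀ + J₁) (Nat.le_add_right _ _)).and
    (hJ₁ (J₀ + J₁) (Nat.le_add_left _ _)).par
  obtain ⟨C, hC, hCb⟩ := exists_bound2 hF fun j => B.μ j * B.a j
  choose! v hv using pt n F B Fr M h2 hB hM
  have hC' : (0 : ℝ) < C := by exact_mod_cast hC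
  have hw : ∀ j, B.μ j * B.a j ≠ 0 := fun j =>
    mul_ne_zero (hB.pre.sm j).1 (by exact_mod_cast (hB.sqf j).ne_zero)
  refine ⟨δ / 32 / (2 * C) ^ 2, by positivity, ?_⟩
  filter_upwards [(Nat.tendsto_div_const_atTop (n := C) (by omega)).eventually
    (exists_scale n M (J₀ + J₁) t), eventually_ge_atTop C] with H hS hH
  obtain ⟨S, h1, h3, h4, hR, hZ⟩ := hS
  obtain ⟨⟨e, hA⟩, hG⟩ := ht S h1 h3 h4 hR
  have hG' := hG e hA
  have hZH : C * S.Z ≤ H := hZ ▸ Nat.mul_div_le _ _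
  have hHZ : (H : ℝ) ≤ 2 * C * S.Z := by
    have k1 : H < C * (S.Z + 1) := hZ ▸ Nat.lt_mul_div_succ _ hC
    have k2 : 1 ≤ S.Z := hZ ▸ Nat.div_pos hH hC
    have k3 : H ≤ 2 * C * S.Z := by nlinarith
    exact_mod_cast k3
  refine le_trans ?_ (hG'.trans (Nat.cast_le.2 (card_le_card_of_injOn v (fun l hl => ?_)
    fun l hl l' hl' h => ?_)))
  · rw [div_mul_eq_mul_div, div_le_iff₀ (by positivity)]
    calc δ / 32 * (H : ℝ) ^ 2 ≤ δ / 32 * (2 * C * S.Z) ^ 2 := by gcongr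
      _ = _ := by ring
  · obtain ⟨hl, hK⟩ := mem_filter.1 (mem_coe.1 hl)
    have ad := adm_of_mem (hR.par e) hl
    obtain ⟨b1, -, -, -, hsh⟩ := mem_AA.1 hl
    obtain ⟨v1, v2⟩ := hv l ad
    obtain ⟨c1, c2⟩ := hCb S.Z l (v l) (fun j => (b1 j).2) v2
    have c3 : (C * S.Z : ℤ) ≤ H := by exact_mod_cast hZH
    exact mem_coe.2 (mem_filter.2 ⟨mem_product.2 ⟨mem_Icc.2 (abs_le.1 (c1.trans c3)),
      mem_Icc.2 (abs_le.1 (c2.trans c3))⟩, v1,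
      good n r F B Fr M hF h3F.card hB hM hFr hk l ad (fun j => (hsh j).one_lt) hK _ v2,
      fun _ _ _ _ p1 p2 p3 p4 => GoodAux.sub_of_sq2 (D := (dat2 F B Fr M).D) hB hM ad
        (fun j => (hsh j).one_lt) v2 p1 p2 p3 p4⟩)
  · have a1 := (hv l (adm_of_mem (hR.par e) (mem_filter.1 (mem_coe.1 hl)).1)).2
    have a2 := (hv l' (adm_of_mem (hR.par e) (mem_filter.1 (mem_coe.1 hl')).1)).2
    funext j
    refine Nat.cast_injective (R := ℤ) (mul_left_cancel₀ (hw j) ?_)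
    rw [← a1, ← a2, h]

open FIN3 in
theorem jin4 : Main40 → Main4 := by
  classical
  intro h n r F v₀ hF
  obtain ⟨c, hc, h⟩ := h n r F v₀ hF
  obtain ⟨K, hK, hj⟩ := fibre_jv2 hF.h0
  have hK' : (0 : ℝ) < K := by exact_mod_cast hK
  refine ⟨c / K, by positivity, h.mono fun H h => ?_⟩
  set G := (Icc (-H : ℤ) H ×ˢ Icc (-H : ℤ) H).filter fun v : ℤ × ℤ =>
    IsCoprime v.1 v.2 ∧ Good r (F.fibre v) ∧ Sep F v with hG
  obtain ⟨T, t1, t2, t3⟩ := exists_subset_injOn_image_eq_of_surjOn (G : Set (ℤ × ℤ))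
    (G.image fun v => jv (F.fibre v)) (f := fun v => jv (F.fibre v))
    (by rw [coe_image]; exact Set.surjOn_image _ _)
  have h1 := card_le_mul_card_image (f := fun v => jv (F.fibre v)) G K fun j _ =>
    hj _ j fun v hv => by
      obtain ⟨k1, k2⟩ := mem_filter.1 hv
      obtain ⟨-, k4, k5⟩ := mem_filter.1 k1
      exact ⟨k4, k5.1.1, k2⟩
  rw [← t3, card_image_of_injOn t2] at h1
  have h2 : (G.card : ℝ) ≤ K * T.card := by exact_mod_cast h1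
  refine ⟨T, fun v hv => (mem_filter.1 (t1 hv)).1, ?_, fun v hv => (mem_filter.1 (t1 hv)).2,
    fun v hv w hw _ _ e => t2 hv hw (by rwa [j_eq_jv, j_eq_jv] at e)⟩
  rw [div_mul_eq_mul_div, div_le_iff₀ hK']
  linarith

theorem main4 : Main4 :=
  have hr := recip hso hs2 pf
  have hm := mat RH.gp
  have hs := size rkk
  have hb := br3 RH.gp hm RH.pt
  jin4 (fin4 (frame hr grp) (RH.par RH.gp hm (bor5 RG.T.bor)) RG.T.pos mkvAll (base3 RH.pty) RH.pt hb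
    (geo3 RH.gp hm (RH.kc RH.gp) (maxf (maxi hs hr grp) grp) (unr hs))
    (good3 (RH.alg RG.T.sha RG.rank) (RH.loc RH.gp hm const) hb (spe3 RG.spe)))

end Pool.Agent.MP_9207e0_ag.r2
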